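import Mathlib

/-!
# The record random harmonic series has a bounded density

Let `I_1, I_2, …` be independent with `P(I_n = 1) = 1/n = 1 - P(I_n = 0)` and `S = ∑ I_n / n`.
We show that the law of `S` has a bounded density.

Let `S'` be the sum over `n ≥ 2`. Size biasing and `P(I_n = 1) / P(I_n = 0) = 1/(n-1)` give, for
`a(x) = P(S' ∈ [x, x+h])`,
`x a(x) ≤ ∑_{n ≥ 2} a(x - 1/n) / (n (n-1))`.
The weights of the terms with `1/n ≤ z` add up to at most `z/(1-z)`, so that for small `x` the
right hand side is nearly an average over the interval `(0, x)`. Hence the best bound for `a` on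
`(-∞, 2X]` exceeds the one on `(-∞, X]` at most by the factor `1 + C (X + h/X)`, and the product of
these factors over the scales `X = h, 2h, 4h, …` is bounded. At the scale `h` the bound is
`P(S' ≤ 2h) ≤ 4h`.
-/

set_option autoImplicit false

namespace Pool.Agent.Results.MP_5a22fd_pr.BoundedDensity

open MeasureTheory ProbabilityTheory Finset Set
open scoped NNReal ENNReal

/-! ### The deterministic part -/

theorem sum_w_le (m N : ℕ) :
    ∑ k ∈ (Finset.range N).filter (fun k => m ≤ k), (1 / (((k : ℝ) + 1) * (k + 2)))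
      ≤ 1 / ((m : ℝ) + 1) := by
  have key : ∀ N : ℕ, ∑ k ∈ (Finset.range N).filter (fun k => m ≤ k),
      (1 / (((k : ℝ) + 1) * (k + 2))) ≤ 1 / ((m : ℝ) + 1) - 1 / ((max m N : ℕ) + 1 : ℝ) := by
    intro N
    induction N with
    | zero => simp
    | succ N ih =>
      rw [Finset.range_add_one, Finset.filter_insert]
      split_ifs with h
      · rw [Finset.sum_insert (by simp)]
        have h1 : max m (N + 1) = N + 1 := by omega
        have h2 : max m N = N := by omega
        rw [h1]
        rw [h2] at ih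
        have h3 : 1 / (((N : ℝ) + 1) * (N + 2)) = 1 / ((N : ℝ) + 1) - 1 / ((N : ℝ) + 2) := by
          field_simp
          ring
        rw [h3]
        push_cast
        have h4 : (N : ℝ) + 1 + 1 = N + 2 := by ring
        rw [h4]
        linarith
      · have h1 : max m (N + 1) = m := by omega
        have h2 : max m N = m := by omega
        rw [h1]
        rw [h2] at ih
        exact ih
  have h1 := key N
  have h2 : (0 : ℝ) ≤ 1 / ((max m N : ℕ) + 1 : ℝ) := by positivity
  linarith

theorem sum_small_le (z : ℝ) (hz : 0 < z) (hz1 : z < 1) (N : ℕ) :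
    ∑ k ∈ (Finset.range N).filter (fun k : ℕ => 1 / ((k : ℝ) + 2) ≤ z),
      (1 / (((k : ℝ) + 1) * (k + 2))) ≤ z / (1 - z) := by
  have hsub : (Finset.range N).filter (fun k : ℕ => 1 / ((k : ℝ) + 2) ≤ z) ⊆
      (Finset.range N).filter (fun k => ⌈1 / z - 2⌉₊ ≤ k) := by
    intro k hk
    rw [Finset.mem_filter] at hk ⊢
    refine ⟨hk.1, ?_⟩
    rw [Nat.ceil_le]
    have h1 : (0 : ℝ) < (k : ℝ) + 2 := by positivity
    have h2 : 1 / z ≤ (k : ℝ) + 2 := by
      rw [div_le_iff₀ hz]
      have := hk.2
      rw [div_le_iff₀ h1] at this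
      linarith
    linarith
  refine (Finset.sum_le_sum_of_subset_of_nonneg hsub ?_).trans ?_
  · intro k _ _
    positivity
  refine (sum_w_le _ N).trans ?_
  have h1 : 1 / z - 2 ≤ (⌈1 / z - 2⌉₊ : ℝ) := Nat.le_ceil _
  have h2 : 1 / z > 1 := by rw [gt_iff_lt, lt_div_iff₀ hz]; linarith
  have h3 : 1 / z - 1 ≤ (⌈1 / z - 2⌉₊ : ℝ) + 1 := by linarith
  have h4 : z / (1 - z) = 1 / (1 / z - 1) := by
    have : (1 : ℝ) - z ≠ 0 := by linarith
    field_simp
  rw [h4]
  exact one_div_le_one_div_of_le (by linarith) h3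

section Analytic

variable {a : ℝ → ℝ} {N : ℕ} {h : ℝ}

/-- one step of the iteration: a bound `b` to the left of `X` and a bound `s` up to `Y` -/
theorem step_bound (ha0 : ∀ x, 0 ≤ a x) (hneg : ∀ x, x + h < 0 → a x = 0)
    (hrec : ∀ x, 0 < x → x * a x ≤ ∑ k ∈ Finset.range N,
      (1 / (((k : ℝ) + 1) * (k + 2))) * a (x - 1 / ((k : ℝ) + 2)))
    {X Y b s : ℝ} (hX : 0 ≤ X) (hb : ∀ y ≤ X, a y ≤ b) (hs : ∀ y ≤ Y, a y ≤ s) (hbs : b ≤ s)
    {x : ℝ} (hx : X < x) (hxY : x ≤ Y) :
    x * a x ≤ b * (∑ k ∈ (Finset.range N).filter (fun k : ℕ => 1 / ((k : ℝ) + 2) ≤ x + h),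
      (1 / (((k : ℝ) + 1) * (k + 2)))) +
      (s - b) * (∑ k ∈ (Finset.range N).filter (fun k : ℕ => 1 / ((k : ℝ) + 2) ≤ x - X),
      (1 / (((k : ℝ) + 1) * (k + 2)))) := by
  refine (hrec x (by linarith)).trans ?_
  have hb0 : 0 ≤ b := (ha0 X).trans (hb X le_rfl)
  rw [Finset.mul_sum, Finset.mul_sum, Finset.sum_filter, Finset.sum_filter,
    ← Finset.sum_add_distrib]
  refine Finset.sum_le_sum fun k _ => ?_
  have hw : (0 : ℝ) ≤ 1 / (((k : ℝ) + 1) * (k + 2)) := by positivity
  have hk : (0 : ℝ) < 1 / ((k : ℝ) + 2) := by positivity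
  by_cases h1 : 1 / ((k : ℝ) + 2) ≤ x + h
  · rw [if_pos h1]
    by_cases h2 : 1 / ((k : ℝ) + 2) ≤ x - X
    · rw [if_pos h2]
      have h3 := hs (x - 1 / ((k : ℝ) + 2)) (by linarith)
      nlinarith [mul_le_mul_of_nonneg_left h3 hw]
    · rw [if_neg h2]
      have h3 := hb (x - 1 / ((k : ℝ) + 2)) (by linarith)
      nlinarith [mul_le_mul_of_nonneg_left h3 hw]
  · rw [if_neg h1, hneg _ (by linarith), mul_zero]
    split_ifs
    · have : 0 ≤ (s - b) * (1 / (((k : ℝ) + 1) * (k + 2))) :=
        mul_nonneg (by linarith) hw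
      linarith
    · simp

theorem doubling (hh : 0 < h) (ha0 : ∀ x, 0 ≤ a x) (ha1 : ∀ x, a x ≤ 1)
    (hneg : ∀ x, x + h < 0 → a x = 0)
    (hrec : ∀ x, 0 < x → x * a x ≤ ∑ k ∈ Finset.range N,
      (1 / (((k : ℝ) + 1) * (k + 2))) * a (x - 1 / ((k : ℝ) + 2)))
    {X b : ℝ} (hX : h ≤ X) (hX8 : X ≤ 1 / 8) (hb : ∀ y ≤ X, a y ≤ b) :
    ∀ y ≤ 2 * X, a y ≤ b * (1 + 23 * (X + h / X)) := by
  have hb0 : 0 ≤ b := (ha0 X).trans (hb X le_rfl)
  have hXpos : 0 < X := hh.trans_le hX
  have he : 0 ≤ X + h / X := by positivity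
  set s : ℝ := max b (sSup (a '' Iic (2 * X))) with hsdef
  have hbdd : BddAbove (a '' Iic (2 * X)) := ⟨1, by rintro _ ⟨y, _, rfl⟩; exact ha1 y⟩
  have hs : ∀ y ≤ 2 * X, a y ≤ s := fun y hy =>
    (le_csSup hbdd ⟨y, hy, rfl⟩).trans (le_max_right _ _)
  have hbs : b ≤ s := le_max_left _ _
  have hpt : ∀ y ≤ 2 * X, a y ≤ b * (1 + 69 / 7 * (X + h / X)) + 4 / 7 * (s - b) := by
    intro x hx
    by_cases hxX : x ≤ X
    · have h1 := hb x hxX
      have h2 : 0 ≤ b * (69 / 7 * (X + h / X)) := by positivity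
      nlinarith
    · push Not at hxX
      have hx0 : 0 < x := hXpos.trans hxX
      have h1 := step_bound ha0 hneg hrec hXpos.le hb hs hbs hxX hx
      have h2 := sum_small_le (x + h) (by linarith) (by linarith) N
      have h3 := sum_small_le (x - X) (by linarith) (by linarith) N
      have h4 : (x + h) / (1 - (x + h)) ≤ x * (1 + 69 / 7 * (X + h / X)) := by
        rw [div_le_iff₀ (by linarith)]
        have h5 : h ≤ x * (h / X) := by
          have : h = X * (h / X) := by field_simp
          calc h = X * (h / X) := this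
            _ ≤ x * (h / X) := by gcongr
        have h6 : (5 : ℝ) / 8 ≤ 1 - (x + h) := by linarith
        have h7 : x + h ≤ 3 * X := by linarith
        set q := h / X with hq
        have hq0 : 0 ≤ q := by positivity
        have hq1 : q ≤ 1 := by rw [hq, div_le_one hXpos]; exact hX
        -- x + h ≤ x (1+q);  need (1+q) ≤ (1 + 69/7 (X+q)) (1 - 3X)
        have h8 : x + h ≤ x * (1 + q) := by nlinarith
        have h9 : (1 + q) ≤ (1 + 69 / 7 * (X + q)) * (1 - (x + h)) := by
          have h10 : (1 + 69 / 7 * (X + q)) * (1 - 3 * X) ≤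
              (1 + 69 / 7 * (X + q)) * (1 - (x + h)) := by
            apply mul_le_mul_of_nonneg_left (by linarith) (by positivity)
          have h11 : (1 + q) ≤ (1 + 69 / 7 * (X + q)) * (1 - 3 * X) := by
            nlinarith [mul_nonneg hq0 hXpos.le, mul_nonneg hXpos.le (sub_nonneg.2 hX8),
              mul_nonneg hq0 (sub_nonneg.2 hX8)]
          linarith
        calc x + h ≤ x * (1 + q) := h8
          _ ≤ x * ((1 + 69 / 7 * (X + q)) * (1 - (x + h))) := by gcongr
          _ = x * (1 + 69 / 7 * (X + q)) * (1 - (x + h)) := by ring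
      have h5 : (x - X) / (1 - (x - X)) ≤ x * (4 / 7) := by
        rw [div_le_iff₀ (by linarith)]
        nlinarith
      have h6 : x * a x ≤ b * (x * (1 + 69 / 7 * (X + h / X))) + (s - b) * (x * (4 / 7)) := by
        refine h1.trans (add_le_add ?_ ?_)
        · exact mul_le_mul_of_nonneg_left (h2.trans h4) hb0
        · exact mul_le_mul_of_nonneg_left (h3.trans h5) (by linarith)
      have h7 : x * a x ≤ x * (b * (1 + 69 / 7 * (X + h / X)) + 4 / 7 * (s - b)) := by
        refine h6.trans (le_of_eq ?_)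
        ring
      exact le_of_mul_le_mul_left h7 hx0
  have hs2 : s ≤ b * (1 + 69 / 7 * (X + h / X)) + 4 / 7 * (s - b) := by
    rw [hsdef]
    refine max_le ?_ ?_
    · have h2 : 0 ≤ b * (69 / 7 * (X + h / X)) := by positivity
      nlinarith
    · refine csSup_le ⟨a 0, ⟨0, by simp; positivity, rfl⟩⟩ ?_
      rintro _ ⟨y, hy, rfl⟩
      exact hpt y hy
  intro y hy
  have := hs y hy
  nlinarith

theorem far_step (ha0 : ∀ x, 0 ≤ a x) (ha1 : ∀ x, a x ≤ 1)
    (hneg : ∀ x, x + h < 0 → a x = 0)
    (hrec : ∀ x, 0 < x → x * a x ≤ ∑ k ∈ Finset.range N,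
      (1 / (((k : ℝ) + 1) * (k + 2))) * a (x - 1 / ((k : ℝ) + 2)))
    {X b : ℝ} (hX : 1 / 8 ≤ X) (hb : ∀ y ≤ X, a y ≤ b) :
    (∀ y ≤ X + 1 / 16, a y ≤ 18 * b) ∧ (1 ≤ X → ∀ y ≤ X + 1 / 16, a y ≤ b) := by
  have hb0 : 0 ≤ b := (ha0 X).trans (hb X le_rfl)
  have hXpos : 0 < X := by linarith
  set s : ℝ := max b (sSup (a '' Iic (X + 1 / 16))) with hsdef
  have hbdd : BddAbove (a '' Iic (X + 1 / 16)) := ⟨1, by rintro _ ⟨y, _, rfl⟩; exact ha1 y⟩
  have hs : ∀ y ≤ X + 1 / 16, a y ≤ s := fun y hy =>
    (le_csSup hbdd ⟨y, hy, rfl⟩).trans (le_max_right _ _)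
  have hbs : b ≤ s := le_max_left _ _
  have hpt : ∀ y, X < y → y ≤ X + 1 / 16 → y * a y ≤ b + (s - b) / 15 := by
    intro x hx hx2
    have h1 := step_bound ha0 hneg hrec hXpos.le hb hs hbs hx hx2
    have h2 : ∑ k ∈ (Finset.range N).filter (fun k : ℕ => 1 / ((k : ℝ) + 2) ≤ x + h),
      (1 / (((k : ℝ) + 1) * (k + 2))) ≤ 1 := by
      have h3 := sum_w_le 0 N
      simp only [Nat.cast_zero, zero_add, div_one] at h3
      refine (Finset.sum_le_sum_of_subset_of_nonneg ?_ ?_).trans h3
      · intro k hk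
        rw [Finset.mem_filter] at hk ⊢
        exact ⟨hk.1, Nat.zero_le k⟩
      · intro k _ _
        positivity
    have h3 : ∑ k ∈ (Finset.range N).filter (fun k : ℕ => 1 / ((k : ℝ) + 2) ≤ x - X),
      (1 / (((k : ℝ) + 1) * (k + 2))) ≤ 1 / 15 := by
      have h5 := sum_small_le (1 / 16) (by norm_num) (by norm_num) N
      have h6 : (Finset.range N).filter (fun k : ℕ => 1 / ((k : ℝ) + 2) ≤ x - X) ⊆
          (Finset.range N).filter (fun k : ℕ => 1 / ((k : ℝ) + 2) ≤ 1 / 16) := by
        intro k hk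
        rw [Finset.mem_filter] at hk ⊢
        exact ⟨hk.1, by linarith [hk.2]⟩
      have h7 := Finset.sum_le_sum_of_subset_of_nonneg (f := fun k : ℕ =>
        (1 / (((k : ℝ) + 1) * (k + 2)))) h6 (fun k _ _ => by positivity)
      refine h7.trans (h5.trans (by norm_num))
    have h4 : b * _ ≤ b * 1 := mul_le_mul_of_nonneg_left h2 hb0
    have h5 : (s - b) * _ ≤ (s - b) * (1 / 15) := mul_le_mul_of_nonneg_left h3 (by linarith)
    linarith
  constructor
  · have hs2 : s ≤ 18 * b := by
      by_contra hcon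
      push Not at hcon
      have hs3 : s ≤ 8 * (b + (s - b) / 15) := by
        rw [hsdef]
        refine max_le ?_ ?_
        · have : 0 ≤ s - b := by linarith
          rw [← hsdef]
          nlinarith
        · refine csSup_le ⟨a 0, ⟨0, by simp; positivity, rfl⟩⟩ ?_
          rintro _ ⟨y, hy, rfl⟩
          rw [← hsdef]
          by_cases hyX : y ≤ X
          · have := hb y hyX
            nlinarith
          · push Not at hyX
            have h1 := hpt y hyX hy
            have h2 := ha0 y
            nlinarith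
      nlinarith
    intro y hy
    exact (hs y hy).trans hs2
  · intro hX1
    have hs2 : s ≤ b := by
      have hs3 : s ≤ b + (s - b) / 15 := by
        rw [hsdef]
        refine max_le ?_ ?_
        · rw [← hsdef]
          linarith
        · refine csSup_le ⟨a 0, ⟨0, by simp; positivity, rfl⟩⟩ ?_
          rintro _ ⟨y, hy, rfl⟩
          rw [← hsdef]
          by_cases hyX : y ≤ X
          · have := hb y hyX
            linarith
          · push Not at hyX
            have h1 := hpt y hyX hy
            have h2 := ha0 y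
            nlinarith
      linarith
    intro y hy
    exact (hs y hy).trans hs2

/-- The constant of the theorem. -/
noncomputable def K : ℝ := 4 * Real.exp (23 * (9 / 4)) * 18 ^ 15

theorem K_pos : 0 < K := by unfold K; positivity

theorem analytic (hh : 0 < h) (hh8 : h ≤ 1 / 8) (ha0 : ∀ x, 0 ≤ a x) (ha1 : ∀ x, a x ≤ 1)
    (hneg : ∀ x, x + h < 0 → a x = 0) (hbase : ∀ x ≤ h, a x ≤ 4 * h)
    (hrec : ∀ x, 0 < x → x * a x ≤ ∑ k ∈ Finset.range N,
      (1 / (((k : ℝ) + 1) * (k + 2))) * a (x - 1 / ((k : ℝ) + 2))) :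
    ∀ x, a x ≤ K * h := by
  -- first phase
  have phase1 : ∀ i : ℕ, 2 ^ i * h ≤ 1 / 4 → ∀ y ≤ 2 ^ i * h,
      a y ≤ 4 * h * Real.exp (23 * (2 ^ i * h + 2 - 2 / 2 ^ i)) := by
    intro i
    induction i with
    | zero =>
      intro _ y hy
      have h1 := hbase y (by simpa using hy)
      have h2 : (1 : ℝ) ≤ Real.exp (23 * (2 ^ 0 * h + 2 - 2 / 2 ^ 0)) := by
        apply Real.one_le_exp
        norm_num
        exact hh.le
      nlinarith
    | succ i ih =>
      intro hi y hy
      have hi2 : 2 ^ i * h ≤ 1 / 8 := by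
        have : (2 : ℝ) ^ (i + 1) * h = 2 * (2 ^ i * h) := by ring
        linarith
      have h1 := ih (by linarith)
      have hX : h ≤ 2 ^ i * h := by
        have : (1 : ℝ) ≤ 2 ^ i := one_le_pow₀ (by norm_num)
        nlinarith
      have h2 := doubling hh ha0 ha1 hneg hrec hX hi2 h1 y (by
        have : (2 : ℝ) ^ (i + 1) * h = 2 * (2 ^ i * h) := by ring
        linarith)
      refine h2.trans ?_
      have hpow : (0 : ℝ) < 2 ^ i := by positivity
      have h3 : h / (2 ^ i * h) = 1 / 2 ^ i := by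
        field_simp
      rw [h3]
      have h4 : 1 + 23 * (2 ^ i * h + 1 / 2 ^ i) ≤ Real.exp (23 * (2 ^ i * h + 1 / 2 ^ i)) := by
        have := Real.add_one_le_exp (23 * (2 ^ i * h + 1 / 2 ^ i))
        linarith
      calc 4 * h * Real.exp (23 * (2 ^ i * h + 2 - 2 / 2 ^ i)) *
            (1 + 23 * (2 ^ i * h + 1 / 2 ^ i))
          ≤ 4 * h * Real.exp (23 * (2 ^ i * h + 2 - 2 / 2 ^ i)) *
            Real.exp (23 * (2 ^ i * h + 1 / 2 ^ i)) := by gcongr
        _ = 4 * h * Real.exp (23 * (2 ^ (i + 1) * h + 2 - 2 / 2 ^ (i + 1))) := by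
            rw [mul_assoc, ← Real.exp_add]
            congr 2
            field_simp
            ring
  -- choose the scale
  obtain ⟨i, hi1, hi2⟩ : ∃ i : ℕ, 1 / 8 ≤ 2 ^ i * h ∧ 2 ^ i * h ≤ 1 / 4 := by
    have hex : ∃ i : ℕ, 1 / 8 ≤ 2 ^ i * h := by
      obtain ⟨i, hi⟩ := pow_unbounded_of_one_lt (1 / (8 * h)) (one_lt_two : (1 : ℝ) < 2)
      refine ⟨i, ?_⟩
      rw [div_lt_iff₀ (by positivity)] at hi
      linarith
    refine ⟨Nat.find hex, Nat.find_spec hex, ?_⟩
    rcases Nat.eq_zero_or_pos (Nat.find hex) with h0 | h0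
    · rw [h0]
      norm_num
      linarith
    · have h1 := Nat.find_min hex (Nat.sub_lt h0 one_pos)
      push Not at h1
      have h2 : (2 : ℝ) ^ (Nat.find hex) = 2 * 2 ^ (Nat.find hex - 1) := by
        rw [← pow_succ']
        congr 1
        omega
      rw [h2]
      linarith
  have hb : ∀ y ≤ 1 / 8, a y ≤ 4 * h * Real.exp (23 * (9 / 4)) := by
    intro y hy
    refine (phase1 i hi2 y (hy.trans hi1)).trans ?_
    have hpow : (0 : ℝ) < 2 ^ i := by positivity
    have : (0 : ℝ) ≤ 2 / 2 ^ i := by positivity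
    gcongr
    linarith
  -- second phase
  have phase2 : ∀ j : ℕ, ∀ y ≤ 1 / 8 + (j : ℝ) / 16,
      a y ≤ 18 ^ j * (4 * h * Real.exp (23 * (9 / 4))) := by
    intro j
    induction j with
    | zero => intro y hy; simpa using hb y (by simpa using hy)
    | succ j ih =>
      intro y hy
      have h1 := (far_step ha0 ha1 hneg hrec (X := 1 / 8 + (j : ℝ) / 16)
        (by have : (0 : ℝ) ≤ (j : ℝ) / 16 := by positivity
            linarith) ih).1 y (by push_cast at hy; linarith)
      refine h1.trans (le_of_eq ?_)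
      ring
  have phase3 : ∀ j : ℕ, ∀ y ≤ 1 + (j : ℝ) / 16,
      a y ≤ 18 ^ 15 * (4 * h * Real.exp (23 * (9 / 4))) := by
    intro j
    induction j with
    | zero =>
      intro y hy
      exact phase2 15 y (by norm_num at hy ⊢; linarith)
    | succ j ih =>
      intro y hy
      have h0 : (0 : ℝ) ≤ (j : ℝ) / 16 := by positivity
      exact (far_step ha0 ha1 hneg hrec (X := 1 + (j : ℝ) / 16)
        (by linarith) ih).2 (by linarith) y (by push_cast at hy; linarith)
  intro x
  obtain ⟨j, hj⟩ := exists_nat_gt (16 * x)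
  refine (phase3 j x (by linarith)).trans (le_of_eq ?_)
  unfold K
  ring

end Analytic


/-! ### The random series -/

/-- `I 0, I 1, I 2, …` stand for the random variables `I_1, I_2, I_3, …` of the problem: they are
independent, take the values `0` and `1` almost surely, and `I n` is equal to `1` with probability
`1 / (n + 1)`. -/
structure IsRecordSequence {Ω : Type*} [MeasurableSpace Ω] (P : Measure Ω)
    (I : ℕ → Ω → ℝ) : Prop where
  measurable : ∀ n, Measurable (I n)
  values : ∀ n, ∀ᵐ ω ∂P, I n ω = 0 ∨ I n ω = 1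
  prob : ∀ n, P {ω | I n ω = 1} = ENNReal.ofReal (1 / ((n : ℝ) + 1))
  indep : iIndepFun I P

/-- The record random harmonic series: the sum of `I n / (n + 1)` over all `n ≥ 0`. -/
noncomputable def S {Ω : Type*} (I : ℕ → Ω → ℝ) (ω : Ω) : ℝ := ∑' n : ℕ, I n ω / ((n : ℝ) + 1)

section Prob

variable {Ω : Type*} [MeasurableSpace Ω] {P : Measure Ω} [IsProbabilityMeasure P]
  {I : ℕ → Ω → ℝ}

/-- the terms of the series without the first one -/
noncomputable def f (I : ℕ → Ω → ℝ) (k : ℕ) (ω : Ω) : ℝ := I (k + 1) ω / ((k : ℝ) + 2)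

/-- the partial sums without the first term -/
noncomputable def T (I : ℕ → Ω → ℝ) (N : ℕ) (ω : Ω) : ℝ := ∑ k ∈ Finset.range N, f I k ω

omit [IsProbabilityMeasure P] in
theorem f_meas (hI : IsRecordSequence P I) (k : ℕ) : Measurable (f I k) :=
  (hI.measurable (k + 1)).div_const _

omit [IsProbabilityMeasure P] in
theorem T_meas (hI : IsRecordSequence P I) (N : ℕ) : Measurable (T I N) := by
  unfold T
  exact Finset.measurable_sum _ fun k _ => f_meas hI k

omit [IsProbabilityMeasure P] in
theorem f_indep (hI : IsRecordSequence P I) : iIndepFun (f I) P := by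
  have h1 := hI.indep.precomp (g := fun k : ℕ => k + 1) (fun a b h => by simpa using h)
  have h2 := h1.comp (fun (k : ℕ) (x : ℝ) => x / ((k : ℝ) + 2)) (fun k => by fun_prop)
  exact h2

omit [IsProbabilityMeasure P] in
theorem prob_one (hI : IsRecordSequence P I) (n : ℕ) :
    P.real {ω | I n ω = 1} = 1 / ((n : ℝ) + 1) := by
  rw [measureReal_def, hI.prob n, ENNReal.toReal_ofReal (by positivity)]

omit [IsProbabilityMeasure P] in
theorem meas_one (hI : IsRecordSequence P I) (n : ℕ) : MeasurableSet {ω | I n ω = 1} :=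
  hI.measurable n (measurableSet_singleton 1)

omit [IsProbabilityMeasure P] in
theorem meas_zero (hI : IsRecordSequence P I) (n : ℕ) : MeasurableSet {ω | I n ω = 0} :=
  hI.measurable n (measurableSet_singleton 0)

theorem prob_zero (hI : IsRecordSequence P I) (n : ℕ) :
    P.real {ω | I n ω = 0} = (n : ℝ) / ((n : ℝ) + 1) := by
  have h1 : P.real {ω | I n ω = 0} + P.real {ω | I n ω = 1} = 1 := by
    rw [← measureReal_union _ (meas_one hI n)]
    · have h2 : P.real ({ω | I n ω = 0} ∪ {ω | I n ω = 1}) = P.real Set.univ := by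
        apply measureReal_congr
        filter_upwards [hI.values n] with ω hω
        apply propext
        exact ⟨fun _ => trivial, fun _ => hω⟩
      rw [h2, probReal_univ]
    · rw [Set.disjoint_left]
      intro ω h0 h1
      simp only [Set.mem_ofPred_eq] at h0 h1
      rw [h0] at h1
      exact zero_ne_one h1
  rw [prob_one hI n] at h1
  have h3 : (n : ℝ) / ((n : ℝ) + 1) = 1 - 1 / ((n : ℝ) + 1) := by field_simp; ring
  rw [h3]
  linarith

theorem term_le (hI : IsRecordSequence P I) {N k : ℕ} (hk : k < N) {A : Set ℝ}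
    (hA : MeasurableSet A) :
    P.real ({ω | I (k + 1) ω = 1} ∩ {ω | T I N ω ∈ A}) ≤
      (1 / ((k : ℝ) + 1)) * P.real {ω | T I N ω + 1 / ((k : ℝ) + 2) ∈ A} := by
  set R : Ω → ℝ := ∑ j ∈ (Finset.range N).erase k, f I j with hR
  have hind : IndepFun R (f I k) P :=
    (f_indep hI).indepFun_finsetSum_of_notMem (f_meas hI) (Finset.notMem_erase k _)
  have hT : ∀ ω, T I N ω = R ω + f I k ω := by
    intro ω
    unfold T
    rw [hR, Finset.sum_apply]
    exact (Finset.sum_erase_add _ _ (Finset.mem_range.2 hk)).symm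
  have hk2 : ((k : ℝ) + 2) ≠ 0 := by positivity
  set B : Set ℝ := {r | r + 1 / ((k : ℝ) + 2) ∈ A} with hB
  have hBm : MeasurableSet B := (measurable_id.add_const _) hA
  have e1 : {ω | I (k + 1) ω = 1} ∩ {ω | T I N ω ∈ A} =
      R ⁻¹' B ∩ f I k ⁻¹' {1 / ((k : ℝ) + 2)} := by
    ext ω
    simp only [Set.mem_inter_iff, Set.mem_ofPred_eq, Set.mem_preimage, Set.mem_singleton_iff, hB]
    rw [hT]
    unfold f
    constructor
    · rintro ⟨h1, h2⟩
      rw [h1] at h2 ⊢
      exact ⟨h2, rfl⟩
    · rintro ⟨h1, h2⟩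
      rw [h2]
      refine ⟨?_, h1⟩
      field_simp at h2
      linarith
  have e2 : R ⁻¹' B ∩ f I k ⁻¹' {0} ⊆ {ω | T I N ω + 1 / ((k : ℝ) + 2) ∈ A} := by
    rintro ω ⟨h1, h2⟩
    simp only [Set.mem_ofPred_eq, Set.mem_preimage, Set.mem_singleton_iff, hB] at h1 h2 ⊢
    rw [hT, h2, add_zero]
    exact h1
  have p1 : P.real (f I k ⁻¹' {1 / ((k : ℝ) + 2)}) = 1 / ((k : ℝ) + 2) := by
    have : f I k ⁻¹' {1 / ((k : ℝ) + 2)} = {ω | I (k + 1) ω = 1} := by
      ext ω
      simp only [Set.mem_preimage, Set.mem_singleton_iff, Set.mem_ofPred_eq]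
      unfold f
      constructor
      · intro h
        field_simp at h
        linarith
      · intro h
        rw [h]
    rw [this, prob_one hI]
    push_cast
    ring
  have p0 : P.real (f I k ⁻¹' {0}) = ((k : ℝ) + 1) / ((k : ℝ) + 2) := by
    have : f I k ⁻¹' {0} = {ω | I (k + 1) ω = 0} := by
      ext ω
      simp only [Set.mem_preimage, Set.mem_singleton_iff, Set.mem_ofPred_eq]
      unfold f
      rw [div_eq_zero_iff]
      simp [hk2]
    rw [this, prob_zero hI]
    push_cast
    ring
  have q1 := hind.measure_inter_preimage_eq_mul B {1 / ((k : ℝ) + 2)} hBm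
    (measurableSet_singleton _)
  have q0 := hind.measure_inter_preimage_eq_mul B {0} hBm (measurableSet_singleton _)
  have q1' : P.real (R ⁻¹' B ∩ f I k ⁻¹' {1 / ((k : ℝ) + 2)}) =
      P.real (R ⁻¹' B) * (1 / ((k : ℝ) + 2)) := by
    rw [measureReal_def, q1, ENNReal.toReal_mul, ← measureReal_def, ← measureReal_def, p1]
  have q0' : P.real (R ⁻¹' B ∩ f I k ⁻¹' {0}) =
      P.real (R ⁻¹' B) * (((k : ℝ) + 1) / ((k : ℝ) + 2)) := by
    rw [measureReal_def, q0, ENNReal.toReal_mul, ← measureReal_def, ← measureReal_def, p0]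
  have h3 : P.real (R ⁻¹' B ∩ f I k ⁻¹' {0}) ≤
      P.real {ω | T I N ω + 1 / ((k : ℝ) + 2) ∈ A} := measureReal_mono e2
  rw [e1, q1']
  rw [q0'] at h3
  have hk1 : (0 : ℝ) < (k : ℝ) + 1 := by positivity
  have : P.real (R ⁻¹' B) * (1 / ((k : ℝ) + 2)) =
      (1 / ((k : ℝ) + 1)) * (P.real (R ⁻¹' B) * (((k : ℝ) + 1) / ((k : ℝ) + 2))) := by
    field_simp
  rw [this]
  exact mul_le_mul_of_nonneg_left h3 (by positivity)

/-- the window probabilities -/
noncomputable def win (P : Measure Ω) (I : ℕ → Ω → ℝ) (N : ℕ) (h x : ℝ) : ℝ :=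
  P.real {ω | T I N ω ∈ Icc x (x + h)}

theorem size_bias (hI : IsRecordSequence P I) (N : ℕ) (h : ℝ) (x : ℝ) :
    x * win P I N h x ≤ ∑ k ∈ Finset.range N,
      (1 / (((k : ℝ) + 1) * (k + 2))) * win P I N h (x - 1 / ((k : ℝ) + 2)) := by
  set E : Set Ω := {ω | T I N ω ∈ Icc x (x + h)} with hE
  have hEm : MeasurableSet E := T_meas hI N measurableSet_Icc
  have h1 : x * win P I N h x = ∫ ω, E.indicator (fun _ => x) ω ∂P := by
    rw [integral_indicator_const x hEm, smul_eq_mul, mul_comm]
    rfl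
  have h2 : ∀ k ∈ Finset.range N, (1 / ((k : ℝ) + 2)) *
      P.real ({ω | I (k + 1) ω = 1} ∩ E) =
      ∫ ω, ({ω | I (k + 1) ω = 1} ∩ E).indicator (fun _ => 1 / ((k : ℝ) + 2)) ω ∂P := by
    intro k _
    rw [integral_indicator_const _ ((meas_one hI _).inter hEm), smul_eq_mul, mul_comm]
  have h3 : x * win P I N h x ≤ ∑ k ∈ Finset.range N, (1 / ((k : ℝ) + 2)) *
      P.real ({ω | I (k + 1) ω = 1} ∩ E) := by
    rw [h1, Finset.sum_congr rfl h2, ← integral_finsetSum]
    · apply integral_mono_ae
      · exact (integrable_const x).indicator hEm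
      · exact integrable_finsetSum _ fun k _ =>
          (integrable_const _).indicator ((meas_one hI _).inter hEm)
      · filter_upwards [ae_all_iff.2 hI.values] with ω hω
        by_cases hωE : ω ∈ E
        · rw [Set.indicator_of_mem hωE]
          have h4 : x ≤ T I N ω := hωE.1
          refine h4.trans (le_of_eq ?_)
          unfold T
          refine Finset.sum_congr rfl fun k _ => ?_
          unfold f
          rcases hω (k + 1) with h0 | h0
          · rw [h0, Set.indicator_of_notMem, zero_div]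
            rintro ⟨h5, -⟩
            simp only [Set.mem_ofPred_eq] at h5
            rw [h0] at h5
            exact zero_ne_one h5
          · rw [h0, Set.indicator_of_mem]
            exact ⟨h0, hωE⟩
        · rw [Set.indicator_of_notMem hωE]
          refine Finset.sum_nonneg fun k _ => ?_
          exact Set.indicator_nonneg (fun _ _ => by positivity) _
    · intro k _
      exact (integrable_const _).indicator ((meas_one hI _).inter hEm)
  refine h3.trans (Finset.sum_le_sum fun k hk => ?_)
  have h4 := term_le hI (Finset.mem_range.1 hk) (measurableSet_Icc (a := x) (b := x + h))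
  have h5 : {ω | T I N ω + 1 / ((k : ℝ) + 2) ∈ Icc x (x + h)} =
      {ω | T I N ω ∈ Icc (x - 1 / ((k : ℝ) + 2)) (x - 1 / ((k : ℝ) + 2) + h)} := by
    ext ω
    simp only [Set.mem_ofPred_eq, Set.mem_Icc]
    constructor
    · rintro ⟨h6, h7⟩
      constructor <;> linarith
    · rintro ⟨h6, h7⟩
      constructor <;> linarith
  rw [h5] at h4
  have h6 : (1 / (((k : ℝ) + 1) * (k + 2))) * win P I N h (x - 1 / ((k : ℝ) + 2)) =
      (1 / ((k : ℝ) + 2)) * ((1 / ((k : ℝ) + 1)) * win P I N h (x - 1 / ((k : ℝ) + 2))) := by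
    field_simp
  rw [h6]
  exact mul_le_mul_of_nonneg_left h4 (by positivity)

omit [IsProbabilityMeasure P] in
theorem T_nonneg_ae (hI : IsRecordSequence P I) : ∀ᵐ ω ∂P, ∀ k, 0 ≤ f I k ω := by
  filter_upwards [ae_all_iff.2 hI.values] with ω hω k
  unfold f
  rcases hω (k + 1) with h0 | h0 <;> rw [h0] <;> positivity

theorem base (hI : IsRecordSequence P I) {N : ℕ} {y : ℝ} (hy : 0 < y) (hN : 1 / y ≤ N) :
    P.real {ω | T I N ω ≤ y} ≤ 2 * y := by
  by_cases hy2 : 1 / 2 ≤ y
  · exact measureReal_le_one.trans (by linarith)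
  push Not at hy2
  have hinv : 2 < 1 / y := by rw [lt_div_iff₀ hy]; linarith
  set c := ⌈1 / y⌉₊ with hc
  have hc1 : 1 / y ≤ c := Nat.le_ceil _
  have hc2 : (c : ℝ) < 1 / y + 1 := Nat.ceil_lt_add_one (by positivity)
  have hc3 : 2 < c := by
    have : (2 : ℝ) < c := hinv.trans_le hc1
    exact_mod_cast this
  obtain ⟨m, hm⟩ : ∃ m, c = m + 2 := ⟨c - 2, by omega⟩
  have hmN : m ≤ N := by
    have : c ≤ N := Nat.ceil_le.2 hN
    omega
  have hmr : (c : ℝ) = m + 2 := by rw [hm]; push_cast; ring
  have hsub : P.real {ω | T I N ω ≤ y} ≤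
      P.real (⋂ k ∈ Finset.range m, (fun ω => I (k + 1) ω) ⁻¹' {0}) := by
    refine ENNReal.toReal_mono (measure_ne_top _ _) (measure_mono_ae ?_)
    filter_upwards [ae_all_iff.2 hI.values, T_nonneg_ae hI] with ω hω hω2
    intro (hT : T I N ω ≤ y)
    change ω ∈ ⋂ k ∈ Finset.range m, (fun ω => I (k + 1) ω) ⁻¹' {0}
    simp only [Set.mem_iInter, Set.mem_preimage, Set.mem_singleton_iff]
    intro k hk
    rcases hω (k + 1) with h0 | h0
    · exact h0
    · exfalso
      have hk' := Finset.mem_range.1 hk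
      have h1 : f I k ω ≤ T I N ω := by
        unfold T
        exact Finset.single_le_sum (f := fun k => f I k ω) (fun j _ => hω2 j)
          (Finset.mem_range.2 (by omega))
      have h2 : f I k ω = 1 / ((k : ℝ) + 2) := by unfold f; rw [h0]
      have h3 : (k : ℝ) + 1 ≤ m := by exact_mod_cast hk'
      have h4 : (k : ℝ) + 2 < 1 / y := by linarith
      have h5 : y < 1 / ((k : ℝ) + 2) := by
        rw [lt_div_iff₀ (by positivity)]
        rw [lt_div_iff₀ hy] at h4
        linarith
      linarith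
  have hind := hI.indep.precomp (g := fun k : ℕ => k + 1) (fun a b h => by simpa using h)
  have hprod := hind.measure_inter_preimage_eq_mul (Finset.range m)
    (sets := fun _ => {(0 : ℝ)}) (fun _ _ => measurableSet_singleton _)
  have hval : P.real (⋂ k ∈ Finset.range m, (fun ω => I (k + 1) ω) ⁻¹' {0}) =
      1 / ((m : ℝ) + 1) := by
    rw [measureReal_def, hprod, ENNReal.toReal_prod]
    have : ∀ k ∈ Finset.range m, (P ((fun ω => I (k + 1) ω) ⁻¹' {0})).toReal =
        ((k : ℝ) + 1) / (k + 2) := by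
      intro k _
      have h1 := prob_zero hI (k + 1)
      rw [measureReal_def] at h1
      have h2 : ((fun ω => I (k + 1) ω) ⁻¹' {0}) = {ω | I (k + 1) ω = 0} := rfl
      rw [h2, h1]
      push_cast
      ring
    rw [Finset.prod_congr rfl this]
    clear this hprod hsub hmN hm hmr
    induction m with
    | zero => simp
    | succ m ih =>
      rw [Finset.prod_range_succ, ih]
      push_cast
      field_simp
      ring
  rw [hval] at hsub
  refine hsub.trans ?_
  have h1 : 1 / y - 1 ≤ (m : ℝ) + 1 := by linarith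
  rw [div_le_iff₀ (by positivity)]
  have h2 : 2 * y * (1 / y - 1) ≤ 2 * y * ((m : ℝ) + 1) :=
    mul_le_mul_of_nonneg_left h1 (by positivity)
  have h3 : 2 * y * (1 / y - 1) = 2 - 2 * y := by field_simp
  linarith

theorem window (hI : IsRecordSequence P I) {N : ℕ} {h : ℝ} (hh : 0 < h) (hh8 : h ≤ 1 / 8)
    (hN : 1 / (2 * h) ≤ N) (x : ℝ) : win P I N h x ≤ K * h := by
  refine analytic (N := N) hh hh8 (fun x => measureReal_nonneg) (fun x => measureReal_le_one)
    ?_ ?_ (fun x _ => size_bias hI N h x) x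
  · intro x hx
    rw [measureReal_def, ENNReal.toReal_eq_zero_iff]
    left
    have : ∀ᵐ ω ∂P, ω ∉ {ω | T I N ω ∈ Icc x (x + h)} := by
      filter_upwards [T_nonneg_ae hI] with ω hω
      rintro ⟨-, h2⟩
      have : 0 ≤ T I N ω := Finset.sum_nonneg fun k _ => hω k
      linarith
    exact measure_eq_zero_iff_ae_notMem.2 this
  · intro x hx
    have h1 := base hI (y := 2 * h) (by positivity) hN
    have h2 : win P I N h x ≤ P.real {ω | T I N ω ≤ 2 * h} := by
      refine measureReal_mono ?_ (measure_ne_top _ _)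
      rintro ω ⟨-, h3⟩
      change T I N ω ≤ 2 * h
      linarith
    change win P I N h x ≤ 4 * h
    linarith


/-! ### Passage to the limit -/

omit [IsProbabilityMeasure P] in
theorem lintegral_term (hI : IsRecordSequence P I) (n : ℕ) :
    ∫⁻ ω, ENNReal.ofReal (I n ω / ((n : ℝ) + 1)) ∂P =
      ENNReal.ofReal (1 / ((n : ℝ) + 1) * (1 / ((n : ℝ) + 1))) := by
  have h1 : ∫⁻ ω, ENNReal.ofReal (I n ω / ((n : ℝ) + 1)) ∂P =
      ∫⁻ ω, {ω | I n ω = 1}.indicator (fun _ => ENNReal.ofReal (1 / ((n : ℝ) + 1))) ω ∂P := by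
    apply lintegral_congr_ae
    filter_upwards [hI.values n] with ω hω
    rcases hω with h0 | h0
    · rw [Set.indicator_of_notMem, h0]
      · simp
      · intro h1
        simp only [Set.mem_ofPred_eq] at h1
        rw [h0] at h1
        exact zero_ne_one h1
    · rw [Set.indicator_of_mem (by exact h0), h0]
  rw [h1, lintegral_indicator_const (meas_one hI n), hI.prob n,
    ← ENNReal.ofReal_mul (by positivity)]

omit [IsProbabilityMeasure P] in
theorem summable_ae (hI : IsRecordSequence P I) :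
    ∀ᵐ ω ∂P, Summable fun n : ℕ => I n ω / ((n : ℝ) + 1) := by
  have h1 : ∫⁻ ω, ∑' n : ℕ, ENNReal.ofReal (I n ω / ((n : ℝ) + 1)) ∂P ≠ ⊤ := by
    rw [lintegral_tsum]
    · simp_rw [lintegral_term hI]
      have h2 : Summable fun n : ℕ => 1 / ((n : ℝ) + 1) * (1 / ((n : ℝ) + 1)) := by
        have h3 : Summable fun n : ℕ => 1 / (n : ℝ) ^ 2 :=
          Real.summable_one_div_nat_pow.2 (by norm_num)
        have h4 := (summable_nat_add_iff 1).2 h3
        refine h4.congr fun n => ?_
        push_cast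
        field_simp
      exact h2.tsum_ofReal_ne_top
    · intro n
      exact ((hI.measurable n).div_const _).ennreal_ofReal.aemeasurable
  have h2 := ae_lt_top' (by
    refine AEMeasurable.tsum ?_
    intro n
    exact ((hI.measurable n).div_const _).ennreal_ofReal.aemeasurable) h1
  filter_upwards [h2, ae_all_iff.2 hI.values] with ω hω hv
  have h3 := ENNReal.summable_toReal hω.ne
  refine h3.congr fun n => ?_
  rw [ENNReal.toReal_ofReal]
  rcases hv n with h0 | h0 <;> rw [h0] <;> positivity

/-- the series without the first term -/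
noncomputable def S' (I : ℕ → Ω → ℝ) (ω : Ω) : ℝ := ∑' k : ℕ, f I k ω

theorem tendsto_T (hI : IsRecordSequence P I) :
    ∀ᵐ ω ∂P, Filter.Tendsto (fun N => T I N ω) Filter.atTop (nhds (S' I ω)) := by
  filter_upwards [summable_ae hI] with ω hω
  have h1 : Summable fun k : ℕ => f I k ω := by
    have h2 := (summable_nat_add_iff 1).2 hω
    refine h2.congr fun k => ?_
    unfold f
    push_cast
    ring
  exact h1.hasSum.tendsto_sum_nat

theorem S_eq (hI : IsRecordSequence P I) : ∀ᵐ ω ∂P, S I ω = 1 + S' I ω := by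
  have h0 : ∀ᵐ ω ∂P, I 0 ω = 1 := by
    have h1 := prob_zero hI 0
    have h2 : P {ω | I 0 ω = 0} = 0 := by
      rw [Nat.cast_zero, zero_div, measureReal_def, ENNReal.toReal_eq_zero_iff] at h1
      rcases h1 with h1 | h1
      · exact h1
      · exact absurd h1 (measure_ne_top _ _)
    have h3 : ∀ᵐ ω ∂P, ¬ I 0 ω = 0 := measure_eq_zero_iff_ae_notMem.1 h2
    filter_upwards [h3, hI.values 0] with ω h4 h5
    exact h5.resolve_left h4
  filter_upwards [summable_ae hI, h0] with ω hω h1
  unfold S
  rw [hω.tsum_eq_zero_add, h1]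
  unfold S' f
  congr 1
  · simp
  · refine tsum_congr fun k => ?_
    push_cast
    ring

theorem S'_aemeas (hI : IsRecordSequence P I) : AEMeasurable (S' I) P :=
  aemeasurable_of_tendsto_metrizable_ae Filter.atTop (fun N => (T_meas hI N).aemeasurable)
    (tendsto_T hI)

theorem window_limit (hI : IsRecordSequence P I) {h : ℝ} (hh : 0 < h) (hh8 : h ≤ 1 / 8)
    (x : ℝ) : P {ω | S' I ω ∈ Ioo x (x + h)} ≤ ENNReal.ofReal (K * h) := by
  set E : ℕ → Set Ω := fun M => {ω | ∀ N, M ≤ N → T I N ω ∈ Ioo x (x + h)} with hE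
  have hmono : Monotone E := by
    intro M M' hM ω hω N hN
    exact hω N (hM.trans hN)
  have h1 : P {ω | S' I ω ∈ Ioo x (x + h)} ≤ P (⋃ M, E M) := by
    apply measure_mono_ae
    filter_upwards [tendsto_T hI] with ω hω
    intro (hS : S' I ω ∈ Ioo x (x + h))
    have h2 := hω.eventually (isOpen_Ioo.mem_nhds hS)
    obtain ⟨M, hM⟩ := Filter.eventually_atTop.1 h2
    exact Set.mem_iUnion.2 ⟨M, hM⟩
  refine h1.trans ?_
  rw [hmono.measure_iUnion]
  refine iSup_le fun M => ?_
  obtain ⟨N0, hN0⟩ := exists_nat_ge (1 / (2 * h))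
  have h2 := window hI hh hh8 (N := max M N0)
    (hN0.trans (by exact_mod_cast le_max_right M N0)) x
  have h3 : E M ⊆ {ω | T I (max M N0) ω ∈ Icc x (x + h)} := fun ω hω =>
    Ioo_subset_Icc_self (hω _ (le_max_left _ _))
  calc P (E M) ≤ P {ω | T I (max M N0) ω ∈ Icc x (x + h)} := measure_mono h3
    _ = ENNReal.ofReal (P.real {ω | T I (max M N0) ω ∈ Icc x (x + h)}) := by
        rw [measureReal_def, ENNReal.ofReal_toReal (measure_ne_top _ _)]
    _ ≤ ENNReal.ofReal (K * h) := ENNReal.ofReal_le_ofReal h2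

end Prob

/-- a function which is monotone at small distances is monotone -/
theorem monotone_of_local {g : ℝ → ℝ} {δ : ℝ} (hδ : 0 < δ)
    (hg : ∀ x y, x ≤ y → y ≤ x + δ → g x ≤ g y) : Monotone g := by
  have key : ∀ n : ℕ, ∀ x y : ℝ, x ≤ y → y ≤ x + n * δ → g x ≤ g y := by
    intro n
    induction n with
    | zero =>
      intro x y h1 h2
      have : x = y := le_antisymm h1 (by simpa using h2)
      rw [this]
    | succ n ih =>
      intro x y h1 h2
      by_cases h3 : y ≤ x + δ
      · exact hg x y h1 h3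
      · push Not at h3
        refine (hg x (x + δ) (by linarith) le_rfl).trans (ih (x + δ) y h3.le ?_)
        push_cast at h2
        linarith
  intro x y hxy
  obtain ⟨n, hn⟩ := exists_nat_ge ((y - x) / δ)
  refine key n x y hxy ?_
  rw [div_le_iff₀ hδ] at hn
  linarith

/-- a law on the line whose small windows have probability at most `C` times their length is
bounded by `2 C` times Lebesgue measure -/
theorem measure_le_of_windows (ν : Measure ℝ) [IsProbabilityMeasure ν] {C δ : ℝ} (hC : 0 < C)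
    (hδ : 0 < δ) (hν : ∀ h, 0 < h → h ≤ δ → ∀ x, ν (Ioo x (x + h)) ≤ ENNReal.ofReal (C * h)) :
    ν ≤ ENNReal.ofReal (2 * C) • (volume : Measure ℝ) := by
  have hmono : Monotone (fun x => 2 * C * x - cdf ν x) := by
    apply monotone_of_local (δ := δ / 2) (by positivity)
    intro x y hxy hy
    rcases eq_or_lt_of_le hxy with rfl | hlt
    · exact le_rfl
    have h1 : ν (Ioc x y) ≤ ENNReal.ofReal (C * (2 * (y - x))) := by
      refine (measure_mono ?_).trans (hν (2 * (y - x)) (by linarith) (by linarith) x)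
      intro z hz
      exact ⟨hz.1, by linarith [hz.2]⟩
    have h2 : ν (Ioc x y) = ENNReal.ofReal (cdf ν y - cdf ν x) := by
      conv_lhs => rw [← measure_cdf ν]
      rw [StieltjesFunction.measure_Ioc]
    rw [h2, ENNReal.ofReal_le_ofReal_iff (by
      have : 0 < y - x := by linarith
      positivity)] at h1
    change 2 * C * x - cdf ν x ≤ 2 * C * y - cdf ν y
    linarith
  let g : StieltjesFunction ℝ :=
    { toFun := fun x => 2 * C * x - cdf ν x
      mono' := hmono
      right_continuous' := fun x =>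
        (by fun_prop : Continuous fun x : ℝ => 2 * C * x).continuousWithinAt.sub
          ((cdf ν).right_continuous x) }
  have hsum : ENNReal.ofReal (2 * C) • (volume : Measure ℝ) = g.measure + ν := by
    have hfin : IsLocallyFiniteMeasure (ENNReal.ofReal (2 * C) • (volume : Measure ℝ)) := by
      have h0 : ENNReal.ofReal (2 * C) • (volume : Measure ℝ) =
          (Real.toNNReal (2 * C)) • (volume : Measure ℝ) := rfl
      rw [h0]
      infer_instance
    apply Measure.ext_of_Ioc
    intro a b hab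
    symm
    rw [Measure.add_apply, StieltjesFunction.measure_Ioc]
    have h2 : ν (Ioc a b) = ENNReal.ofReal (cdf ν b - cdf ν a) := by
      conv_lhs => rw [← measure_cdf ν]
      rw [StieltjesFunction.measure_Ioc]
    rw [h2, ← ENNReal.ofReal_add (sub_nonneg.2 (hmono hab.le))
      (sub_nonneg.2 ((cdf ν).mono hab.le)), Measure.smul_apply, Real.volume_Ioc, smul_eq_mul,
      ← ENNReal.ofReal_mul (by positivity)]
    congr 1
    change 2 * C * b - cdf ν b - (2 * C * a - cdf ν a) + _ = _
    ring
  rw [hsum]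
  exact Measure.le_add_left le_rfl

/-- a finite measure bounded by a multiple of Lebesgue measure has a bounded density -/
theorem exists_density (ν : Measure ℝ) [IsFiniteMeasure ν] {C : ℝ≥0∞}
    (hν : ν ≤ C • (volume : Measure ℝ)) :
    ∃ p : ℝ → ℝ≥0∞, Measurable p ∧ (∀ x, p x ≤ C) ∧ ν = volume.withDensity p := by
  have hac : ν ≪ (volume : Measure ℝ) := by
    refine Measure.AbsolutelyContinuous.mk fun s _ hs => ?_
    have := hν s
    rw [Measure.smul_apply, hs, smul_zero] at this
    exact le_antisymm this bot_le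
  have hd := Measure.withDensity_rnDeriv_eq ν volume hac
  have hle : ν.rnDeriv volume ≤ᵐ[volume] fun _ => C := by
    apply ae_le_of_forall_setLIntegral_le_of_sigmaFinite (Measure.measurable_rnDeriv _ _)
    intro s hs _
    rw [← withDensity_apply _ hs, hd, setLIntegral_const]
    exact hν s
  refine ⟨fun x => min (ν.rnDeriv volume x) C,
    (Measure.measurable_rnDeriv _ _).min measurable_const, fun x => min_le_right _ _, ?_⟩
  rw [← hd]
  apply withDensity_congr_ae
  filter_upwards [hle] with x hx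
  rw [hd]
  exact (min_eq_left hx).symm

/-- the law of a `{0,1}`-valued random variable which is `1` with probability `1 / (n + 1)` -/
noncomputable def coin (n : ℕ) : Measure ℝ :=
  ENNReal.ofReal (1 / ((n : ℝ) + 1)) • Measure.dirac 1 +
    ENNReal.ofReal ((n : ℝ) / ((n : ℝ) + 1)) • Measure.dirac 0

instance (n : ℕ) : IsProbabilityMeasure (coin n) := by
  refine ⟨?_⟩
  unfold coin
  rw [Measure.add_apply, Measure.smul_apply, Measure.smul_apply, measure_univ, measure_univ,
    smul_eq_mul, smul_eq_mul, mul_one, mul_one, ← ENNReal.ofReal_add (by positivity)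
    (by positivity)]
  rw [ENNReal.ofReal_eq_one]
  field_simp
  ring

theorem exists_recordSequence : ∃ (P : Measure (ℕ → ℝ)) (_ : IsProbabilityMeasure P)
    (I : ℕ → (ℕ → ℝ) → ℝ), IsRecordSequence P I := by
  refine ⟨Measure.infinitePi coin, inferInstance, fun n ω => ω n, ?_, ?_, ?_, ?_⟩
  · intro n
    exact measurable_pi_apply n
  · intro n
    have h1 : (Measure.infinitePi coin).map (fun ω => ω n) = coin n :=
      (measurePreserving_eval_infinitePi coin n).map_eq
    have h2 : ∀ᵐ x ∂(coin n), x = 0 ∨ x = 1 := by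
      rw [ae_iff]
      unfold coin
      have hm : MeasurableSet {a : ℝ | ¬(a = 0 ∨ a = 1)} := by measurability
      rw [Measure.add_apply, Measure.smul_apply, Measure.smul_apply, Measure.dirac_apply' _ hm,
        Measure.dirac_apply' _ hm]
      simp
    rw [← h1] at h2
    exact ae_of_ae_map (measurable_pi_apply n).aemeasurable h2
  · intro n
    have h1 : (Measure.infinitePi coin).map (fun ω => ω n) = coin n :=
      (measurePreserving_eval_infinitePi coin n).map_eq
    have h2 : (Measure.infinitePi coin) {ω | ω n = 1} =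
        ((Measure.infinitePi coin).map (fun ω => ω n)) {1} := by
      rw [Measure.map_apply (measurable_pi_apply n) (measurableSet_singleton _)]
      rfl
    rw [h2, h1]
    unfold coin
    rw [Measure.add_apply, Measure.smul_apply, Measure.smul_apply,
      Measure.dirac_apply' _ (measurableSet_singleton _),
      Measure.dirac_apply' _ (measurableSet_singleton _)]
    simp
  · exact iIndepFun_infinitePi (P := coin) (X := fun _ x => x) (fun _ => measurable_id)

/-- **The density of the record random harmonic series is bounded.** Sequences as in the problem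
exist, and there is a constant `C` such
that, for every sequence of independent `{0,1}`-valued random variables `I_1, I_2, …` with
`P(I_n = 1) = 1/n`, the series `∑ I_n / n` converges almost surely and its law has a density with
respect to Lebesgue measure which is everywhere at most `C`; in particular the law of every Borel
set is at most `C` times its Lebesgue measure. -/
theorem result : (∃ (P : Measure (ℕ → ℝ)) (_ : IsProbabilityMeasure P)
      (I : ℕ → (ℕ → ℝ) → ℝ), IsRecordSequence P I) ∧
    ∃ C : ℝ≥0, ∀ (Ω : Type) (_ : MeasurableSpace Ω) (P : Measure Ω)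
    (_ : IsProbabilityMeasure P) (I : ℕ → Ω → ℝ), IsRecordSequence P I →
      (∀ᵐ ω ∂P, Summable fun n : ℕ => I n ω / ((n : ℝ) + 1)) ∧
      AEMeasurable (S I) P ∧
      (∀ A : Set ℝ, MeasurableSet A → P.map (S I) A ≤ C * volume A) ∧
      ∃ p : ℝ → ℝ≥0∞, Measurable p ∧ (∀ x, p x ≤ C) ∧ P.map (S I) = volume.withDensity p := by
  refine ⟨exists_recordSequence, Real.toNNReal (2 * K), ?_⟩
  intro Ω _ P _ I hI
  have hS' := S'_aemeas hI
  have hSm : AEMeasurable (S I) P :=
    (hS'.const_add 1).congr (by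
      filter_upwards [S_eq hI] with ω hω
      exact hω.symm)
  have hprob : IsProbabilityMeasure (P.map (S' I)) := Measure.isProbabilityMeasure_map hS'
  have hle : P.map (S' I) ≤ ENNReal.ofReal (2 * K) • (volume : Measure ℝ) := by
    refine measure_le_of_windows _ K_pos (δ := 1 / 8) (by norm_num) ?_
    intro h hh hh8 x
    rw [Measure.map_apply_of_aemeasurable hS' measurableSet_Ioo]
    exact window_limit hI hh hh8 x
  have hmap : P.map (S I) = (P.map (S' I)).map (fun r => 1 + r) := by
    rw [AEMeasurable.map_map_of_aemeasurable (by fun_prop) hS']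
    apply Measure.map_congr
    filter_upwards [S_eq hI] with ω hω
    exact hω
  have hle2 : P.map (S I) ≤ ENNReal.ofReal (2 * K) • (volume : Measure ℝ) := by
    rw [Measure.le_iff]
    intro A hA
    have hm : Measurable fun r : ℝ => 1 + r := by fun_prop
    rw [hmap, Measure.map_apply hm hA]
    refine (hle _).trans (le_of_eq ?_)
    rw [Measure.smul_apply, Measure.smul_apply, measure_preimage_add]
  refine ⟨summable_ae hI, hSm, ?_, ?_⟩
  · intro A hA
    have := hle2 A
    rw [Measure.smul_apply, smul_eq_mul] at this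
    exact this
  · have hp2 : IsProbabilityMeasure (P.map (S I)) := Measure.isProbabilityMeasure_map hSm
    exact exists_density _ hle2

end Pool.Agent.Results.MP_5a22fd_pr.BoundedDensity
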